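import Pool.Agent.Q279.BM.Main

/-!
# The quaternary cubic form has no nontrivial integer zero

The form is `F = x³ + 2x²y + y³ + y²z + xz² + z³ + t²x - t²y - t²z + tyz + t³`.

The cubic surface `F = 0` has points in every completion of `ℚ`; it violates the Hasse principle
because of a Brauer class of order three, which is split by the Hilbert class field
`H = ℚ(θ, √-23)`, `θ³ = θ + 1`, of `k = ℚ(√-23)`.  In elementary terms: with `w² = w - 6` there are
explicit integral cubic forms `A, B` and quadratic forms `q₀, q₁, q₂` with
`N_{k/ℚ}(A + B w) = A² + A B + 6 B² ≡ 3 · N_{ℚ(θ)/ℚ}(q₀ + q₁ θ + q₂ θ²)  (mod F)`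
(`Q279.BM.norm_identity`).  For a primitive zero of `F`, all primes `p ≥ 5` which divide the right
hand side have a root of `X³ - X - 1` modulo `p`, `3` divides it exactly once, the exponent of `2`
is divisible by three and `A + B w` is not divisible by `2`.  As the ring of integers of `H` is a
principal ideal domain (`Q279.BM.pid`), the primes `p ≥ 5` above are norms from `ℤ[w]` (or inert
in `k`, or `23`), and dividing them out one gets an element of norm `3` of `ℤ[w]`, which does not
exist.
-/

set_option autoImplicit false

namespace Pool.Agent.Results.MP_3a7aac_nt.NoRationalPoint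

/-- The only integer solution of `F(x, y, z, t) = 0` is `x = y = z = t = 0`. -/
theorem result : ∀ x y z t : ℤ,
    x ^ 3 + 2 * x ^ 2 * y + y ^ 3 + y ^ 2 * z + x * z ^ 2 + z ^ 3 + t ^ 2 * x - t ^ 2 * y
      - t ^ 2 * z + t * y * z + t ^ 3 = 0 →
    x = 0 ∧ y = 0 ∧ z = 0 ∧ t = 0 :=
  fun x y z t h => Pool.Agent.Q279.BM.main _ x y z t rfl h

end Pool.Agent.Results.MP_3a7aac_nt.NoRationalPoint
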